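import Pool.Agent.H13.Spec.Poly

/-!
Counting: the number of differences at distance at most `ℓ` of an injective sequence in a field of
characteristic two.
-/

namespace Pool.Agent.H13.Spec

open Finset

/-- The binomial coefficient `C(2^k + e, 2^k)` is odd for `e < 2^k`. -/
lemma choose_odd (k : ℕ) : ∀ e < 2 ^ k, (2 ^ k + e).choose (2 ^ k) % 2 = 1 := by
  induction k with
  | zero =>
    intro e he
    obtain rfl : e = 0 := by simpa using he
    simp
  | succ k ih =>
    intro e he
    have h := Choose.choose_modEq_choose_mod_mul_choose_div_nat (p := 2) (n := 2 ^ (k + 1) + e)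
      (k := 2 ^ (k + 1))
    have h1 : 2 ^ (k + 1) % 2 = 0 := by rw [pow_succ]; omega
    have h2 : 2 ^ (k + 1) / 2 = 2 ^ k := by rw [pow_succ]; omega
    have h3 : (2 ^ (k + 1) + e) / 2 = 2 ^ k + e / 2 := by rw [pow_succ]; omega
    rw [h1, h2, h3, Nat.choose_zero_right, one_mul] at h
    have h4 := ih (e / 2) (by rw [pow_succ] at he; omega)
    unfold Nat.ModEq at h
    rw [h, h4]

section Field

variable {F : Type*} [Field F]

/-- The Nullstellensatz step. -/
lemma coeff_zero [CharP F 2] (K : ℕ) (I : Finset (ℕ × ℕ)) (hI : ∀ p ∈ I, p.1 < K ∧ p.2 < 2 ^ p.1)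
    (c : ℕ × ℕ → F) (S : Finset F) (hS : ∀ k < K, 2 ^ k < S.card)
    (hz : ∀ x ∈ S, ∀ y ∈ S, ∑ p ∈ I, c p * (x + y) ^ (2 ^ p.1 + p.2) = 0) :
    ∀ p ∈ I, c p = 0 := by
  classical
  by_contra hne
  push Not at hne
  -- take the largest exponent with nonzero coefficient
  obtain ⟨p, hp, hpc⟩ := hne
  obtain ⟨q, hq, hmax⟩ := Finset.exists_max_image (I.filter fun p => c p ≠ 0)
    (fun p => 2 ^ p.1 + p.2) ⟨p, Finset.mem_filter.2 ⟨hp, hpc⟩⟩
  rw [Finset.mem_filter] at hq
  obtain ⟨hqI, hqc⟩ := hq
  have hinj : ∀ p ∈ I, 2 ^ p.1 + p.2 = 2 ^ q.1 + q.2 → p = q := by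
    intro p hp h
    have h1 := (hI p hp).2
    have h2 := (hI q hqI).2
    have h3 : p.1 = q.1 := by
      rcases lt_trichotomy p.1 q.1 with h4 | h4 | h4
      · have : 2 ^ (p.1 + 1) ≤ 2 ^ q.1 := Nat.pow_le_pow_right (by norm_num) h4
        rw [pow_succ] at this
        omega
      · exact h4
      · have : 2 ^ (q.1 + 1) ≤ 2 ^ p.1 := Nat.pow_le_pow_right (by norm_num) h4
        rw [pow_succ] at this
        omega
    refine Prod.ext h3 ?_
    rw [h3] at h
    omega
  set N := 2 ^ q.1 + q.2 with hN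
  let X0 : MvPolynomial (Fin 2) F := MvPolynomial.X 0
  let X1 : MvPolynomial (Fin 2) F := MvPolynomial.X 1
  let P : MvPolynomial (Fin 2) F := ∑ p ∈ I, MvPolynomial.C (c p) * (X0 + X1) ^ (2 ^ p.1 + p.2)
  let t : Fin 2 →₀ ℕ := Finsupp.single 0 (2 ^ q.1) + Finsupp.single 1 q.2
  have hhom : ∀ m : ℕ, ((X0 + X1) ^ m).IsHomogeneous m := by
    intro m
    have h : (X0 + X1).IsHomogeneous 1 :=
      (MvPolynomial.isHomogeneous_X F 0).add (MvPolynomial.isHomogeneous_X F 1)
    simpa using h.pow m
  have htdeg : t.degree = N := by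
    simp only [t, map_add, Finsupp.degree_single, hN]
  have hcoeffpow : ((X0 + X1) ^ N).coeff t = ((N.choose (2 ^ q.1) : ℕ) : F) := by
    rw [add_pow, MvPolynomial.coeff_sum]
    have hterm : ∀ m ∈ range (N + 1), MvPolynomial.coeff t (X0 ^ m * X1 ^ (N - m) *
        ((N.choose m : ℕ) : MvPolynomial (Fin 2) F)) =
        if m = 2 ^ q.1 then ((N.choose m : ℕ) : F) else 0 := by
      intro m hm
      have e1 : X0 ^ m * X1 ^ (N - m) * ((N.choose m : ℕ) : MvPolynomial (Fin 2) F) =
          MvPolynomial.monomial (Finsupp.single 0 m + Finsupp.single 1 (N - m))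
            ((N.choose m : ℕ) : F) := by
        have e2 : ((N.choose m : ℕ) : MvPolynomial (Fin 2) F) =
            MvPolynomial.C ((N.choose m : ℕ) : F) := by simp
        rw [e2, MvPolynomial.X_pow_eq_monomial, MvPolynomial.X_pow_eq_monomial,
          MvPolynomial.monomial_mul, mul_comm, MvPolynomial.C_mul_monomial]
        simp
      rw [e1, MvPolynomial.coeff_monomial]
      congr 1
      apply propext
      constructor
      · intro h
        have := DFunLike.congr_fun h 0
        simpa [t] using this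
      · rintro rfl
        simp only [t, hN]
        rw [Nat.add_sub_cancel_left]
    rw [Finset.sum_congr rfl hterm, Finset.sum_ite_eq' (range (N + 1)) (2 ^ q.1)]
    rw [if_pos (Finset.mem_range.2 (by omega))]
  have hcoeff : P.coeff t = c q := by
    simp only [P]
    rw [MvPolynomial.coeff_sum, Finset.sum_eq_single_of_mem q hqI]
    · rw [MvPolynomial.coeff_C_mul, ← hN, hcoeffpow]
      have h1 := choose_odd q.1 q.2 (hI q hqI).2
      rw [← hN] at h1
      have h2 : ((N.choose (2 ^ q.1) : ℕ) : F) = 1 := by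
        rw [← Nat.mod_add_div (N.choose (2 ^ q.1)) 2, h1]
        push_cast
        rw [CharTwo.two_eq_zero]
        ring
      rw [h2, mul_one]
    · intro p hp hpq
      rw [MvPolynomial.coeff_C_mul]
      have : ((X0 + X1) ^ (2 ^ p.1 + p.2)).coeff t = 0 := by
        apply (hhom (2 ^ p.1 + p.2)).coeff_eq_zero
        rw [htdeg]
        intro h
        exact hpq (hinj p hp h.symm)
      rw [this, mul_zero]
  have hcoeffne : P.coeff t ≠ 0 := by rw [hcoeff]; exact hqc
  have htot : P.totalDegree = t.degree := by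
    apply le_antisymm
    · rw [htdeg]
      refine MvPolynomial.totalDegree_finsetSum_le fun p hp => ?_
      by_cases hcp : c p = 0
      · rw [hcp]; simp
      · have h1 := hmax p (Finset.mem_filter.2 ⟨hp, hcp⟩)
        refine (MvPolynomial.totalDegree_mul _ _).trans ?_
        rw [MvPolynomial.totalDegree_C, zero_add]
        exact (hhom _).totalDegree_le.trans h1
    · rw [Finsupp.degree_apply]
      exact MvPolynomial.le_totalDegree (MvPolynomial.mem_support_iff.2 hcoeffne)
  obtain ⟨s, hs, hs'⟩ := MvPolynomial.combinatorial_nullstellensatz_exists_eval_nonzero P t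
    hcoeffne htot (fun _ => S) (by
      intro i
      have hk := hS q.1 (hI q hqI).1
      have h2 := (hI q hqI).2
      fin_cases i
      · simpa [t] using hk
      · simp [t]
        omega)
  apply hs'
  have := hz (s 0) (hs 0) (s 1) (hs 1)
  simpa [P, X0, X1] using this

/-- The lower bound for the number of differences at distance at most `ℓ`. -/
theorem card_diff_ge [CharP F 2] (n ℓ : ℕ) (x : ℕ → F) (hx : Set.InjOn x (Set.Iio n))
    (D : Finset F) (hD : ∀ i j, i < j → j < n → j ≤ i + ℓ → x i + x j ∈ D) :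
    ∑ k ∈ range (Nat.clog 2 n), min ℓ (2 ^ k) ≤ D.card := by
  classical
  by_contra hlt
  push Not at hlt
  set K := Nat.clog 2 n with hK
  let I : Finset (ℕ × ℕ) := (range K).biUnion fun k => (range (min ℓ (2 ^ k))).image fun e => (k, e)
  have hImem : ∀ p, p ∈ I ↔ p.1 < K ∧ p.2 < ℓ ∧ p.2 < 2 ^ p.1 := by
    rintro ⟨k, e⟩
    simp only [I, Finset.mem_biUnion, Finset.mem_range, Finset.mem_image, Prod.mk.injEq,
      lt_min_iff]
    constructor
    · rintro ⟨k', hk', e', he', rfl, rfl⟩
      exact ⟨hk', he'⟩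
    · rintro ⟨h1, h2⟩
      exact ⟨k, h1, e, h2, rfl, rfl⟩
  have hIcard : I.card = ∑ k ∈ range K, min ℓ (2 ^ k) := by
    simp only [I]
    rw [Finset.card_biUnion]
    · refine Finset.sum_congr rfl fun k _ => ?_
      rw [Finset.card_image_of_injective _ (fun a b h => (Prod.mk.inj h).2), Finset.card_range]
    · intro a _ b _ hab
      rw [Function.onFun, Finset.disjoint_left]
      intro p hp hp'
      simp only [Finset.mem_image] at hp hp'
      obtain ⟨_, _, rfl⟩ := hp
      obtain ⟨_, _, h⟩ := hp'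
      exact hab (Prod.mk.inj h).1.symm
  rw [← hIcard] at hlt
  -- a nonzero polynomial with exponents in `I` vanishing on `D`
  let T : (I → F) →ₗ[F] (D → F) :=
    { toFun := fun c δ => ∑ p : I, c p * (δ : F) ^ (2 ^ (p : ℕ × ℕ).1 + (p : ℕ × ℕ).2)
      map_add' := by
        intro a b
        funext δ
        simp only [Pi.add_apply, add_mul, Finset.sum_add_distrib]
      map_smul' := by
        intro r a
        funext δ
        simp only [Pi.smul_apply, smul_eq_mul, RingHom.id_apply, Finset.mul_sum, mul_assoc] }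
  have hker : LinearMap.ker T ≠ ⊥ := by
    apply LinearMap.ker_ne_bot_of_finrank_lt
    rw [Module.finrank_fintype_fun_eq_card, Module.finrank_fintype_fun_eq_card,
      Fintype.card_coe, Fintype.card_coe]
    exact hlt
  obtain ⟨c, hc, hc0⟩ := Submodule.exists_mem_ne_zero_of_ne_bot hker
  rw [LinearMap.mem_ker] at hc
  let c' : ℕ × ℕ → F := fun p => if h : p ∈ I then c ⟨p, h⟩ else 0
  let f : F → F := fun z => ∑ p ∈ I, c' p * z ^ (2 ^ p.1 + p.2)
  have hfsum : ∀ z : F, f z = ∑ p : I, c p * z ^ (2 ^ (p : ℕ × ℕ).1 + (p : ℕ × ℕ).2) := by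
    intro z
    simp only [f]
    rw [← Finset.sum_coe_sort I]
    refine Finset.sum_congr rfl fun p _ => ?_
    simp only [c', p.2, dite_true]
  have hfD : ∀ δ ∈ D, f δ = 0 := by
    intro δ hδ
    rw [hfsum]
    exact congrFun hc ⟨δ, hδ⟩
  have hf : Splits ℓ f := by
    refine Splits.sum I c' (fun p z => z ^ (2 ^ p.1 + p.2)) fun p hp => ?_
    exact splits_pow p.1 p.2 ℓ ((hImem p).1 hp).2.1
  have hf0 : f 0 = 0 := by
    simp only [f]
    refine Finset.sum_eq_zero fun p _ => ?_
    rw [zero_pow (by positivity), mul_zero]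
  have hall := vanish_all hf hf0 x hx (fun i j hij hj hl => hfD _ (hD i j hij hj hl))
  let S : Finset F := (range n).image x
  have hScard : S.card = n := by
    simp only [S]
    rw [Finset.card_image_of_injOn, Finset.card_range]
    rwa [Finset.coe_range]
  have hzero := coeff_zero K I (fun p hp => ⟨((hImem p).1 hp).1, ((hImem p).1 hp).2.2⟩) c' S
    (by
      intro k hk
      rw [hScard]
      exact (Nat.lt_clog_iff_pow_lt (by norm_num)).1 hk)
    (by
      intro a ha b hb
      simp only [S, Finset.mem_image, Finset.mem_range] at ha hb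
      obtain ⟨i, hi, rfl⟩ := ha
      obtain ⟨j, hj, rfl⟩ := hb
      exact hall i hi j hj)
  apply hc0
  funext p
  have h := hzero p p.2
  simp only [c', p.2, dite_true] at h
  exact h

end Field

end Pool.Agent.H13.Spec
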