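import Mathlib

/-!
Definitions: path powers, strong parity edge-colorings and the Gray code coloring.
-/

namespace Pool.Agent.H13.Spec

/-- The `ℓ`-th distance power of the path on the vertices `0, …, n-1`: distinct `i`, `j` are
adjacent when `|i - j| ≤ ℓ`. -/
def pathPower (n ℓ : ℕ) : SimpleGraph (Fin n) where
  Adj i j := i ≠ j ∧ (i : ℕ) ≤ j + ℓ ∧ (j : ℕ) ≤ i + ℓ
  symm := ⟨fun _ _ h => ⟨h.1.symm, h.2.2, h.2.1⟩⟩
  loopless := ⟨fun _ h => h.1 rfl⟩

/-- A walk is a parity walk for the edge-coloring `c` if every color occurs an even number of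
times along it (repeated edges counted with multiplicity). -/
def IsParityWalk {V C : Type} [DecidableEq C] {G : SimpleGraph V} (c : Sym2 V → C) {u v : V}
    (w : G.Walk u v) : Prop :=
  ∀ a : C, Even ((w.edges.map c).count a)

/-- A strong parity edge-coloring of `G`: every parity walk is closed. Only the values of `c` on
the edges of `G` matter. -/
def IsSpec {V C : Type} [DecidableEq C] (G : SimpleGraph V) (c : Sym2 V → C) : Prop :=
  ∀ (u v : V) (w : G.Walk u v), IsParityWalk c w → u = v

/-- The least number of colors in a strong parity edge-coloring of `G`. -/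
noncomputable def specNumber {V : Type} (G : SimpleGraph V) : ℕ :=
  sInf {m | ∃ c : Sym2 V → ℕ, IsSpec G c ∧ (c '' G.edgeSet).ncard = m}

/-- The vector `∑_{i < t ≤ j} e_{c_t}` in `F_2^(ℕ)`, where `c_t = 1 + ν_2(t)`. -/
noncomputable def graySum (i j : ℕ) : ℕ →₀ ZMod 2 :=
  ∑ t ∈ Finset.Ioc i j, Finsupp.single (1 + padicValNat 2 t) 1

/-- The Gray code coloring `φ(v_i v_j) = ∑_{t = i+1}^{j} e_{c_t}` for `i < j`. -/
noncomputable def grayColoring (n : ℕ) : Sym2 (Fin n) → (ℕ →₀ ZMod 2) :=
  Sym2.lift ⟨fun i j => graySum (min (i : ℕ) j) (max (i : ℕ) j), fun i j => by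
    show graySum _ _ = graySum _ _
    rw [min_comm, max_comm]⟩

end Pool.Agent.H13.Spec
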