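import Pool.Agent.H13.Spec.Defs
import Pool.Agent.H13.Spec.Card

/-!
Lower bound: every strong parity edge-coloring of `P_n^ℓ` uses at least
`∑_{k < ⌈log₂ n⌉} min ℓ (2 ^ k)` colors.
-/

namespace Pool.Agent.H13.Spec

open Finset

/-- Every vector space over `F_2` embeds additively into a field of characteristic two. -/
lemma exists_field_embedding (Q : Type) [AddCommGroup Q] [Module (ZMod 2) Q] :
    ∃ (F : Type) (_ : Field F) (_ : CharP F 2) (ψ : Q →+ F), Function.Injective ψ := by
  classical
  let ι := Module.Free.ChooseBasisIndex (ZMod 2) Q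
  let b : Module.Basis ι (ZMod 2) Q := Module.Free.chooseBasis (ZMod 2) Q
  let R := MvPolynomial ι (ZMod 2)
  refine ⟨FractionRing R, inferInstance, inferInstance, ?_⟩
  have h1 : Function.Injective (Finsupp.linearCombination (ZMod 2)
      (MvPolynomial.X : ι → R)) := MvPolynomial.linearIndependent_X ι (ZMod 2)
  let ψ : Q →+ FractionRing R :=
    ((algebraMap R (FractionRing R)).toAddMonoidHom.comp
      (Finsupp.linearCombination (ZMod 2) (MvPolynomial.X : ι → R)).toAddMonoidHom).comp
      b.repr.toLinearMap.toAddMonoidHom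
  refine ⟨ψ, ?_⟩
  intro x y hxy
  have h2 := IsFractionRing.injective R (FractionRing R) hxy
  exact b.repr.injective (h1 h2)

section Parity

set_option linter.unusedSectionVars false

variable {V C : Type} [DecidableEq C] {G : SimpleGraph V} (c : Sym2 V → C)

/-- The parity vector of a walk. -/
noncomputable def par {u v : V} (w : G.Walk u v) : C →₀ ZMod 2 :=
  (w.edges.map fun e => Finsupp.single (c e) (1 : ZMod 2)).sum

lemma par_nil (u : V) : par c (SimpleGraph.Walk.nil : G.Walk u u) = 0 := by
  simp [par]

lemma par_cons {u v w : V} (h : G.Adj u v) (p : G.Walk v w) :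
    par c (SimpleGraph.Walk.cons h p) = Finsupp.single (c s(u, v)) 1 + par c p := by
  simp [par]

lemma par_append {u v w : V} (p : G.Walk u v) (q : G.Walk v w) :
    par c (p.append q) = par c p + par c q := by
  simp [par, SimpleGraph.Walk.edges_append]

lemma par_reverse {u v : V} (p : G.Walk u v) : par c p.reverse = par c p := by
  simp only [par, SimpleGraph.Walk.edges_reverse, List.map_reverse]
  exact List.sum_reverse _

lemma sum_single_apply (l : List C) (a : C) :
    (l.map fun b => Finsupp.single b (1 : ZMod 2)).sum a = (l.count a : ZMod 2) := by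
  induction l with
  | nil => simp
  | cons b l ih =>
    rw [List.map_cons, List.sum_cons, Finsupp.add_apply, ih, Finsupp.single_apply,
      List.count_cons]
    by_cases h : b = a
    · simp [h, add_comm]
    · simp [h]

lemma par_eq_zero_iff {u v : V} (w : G.Walk u v) : par c w = 0 ↔ IsParityWalk c w := by
  have h : ∀ a, par c w a = ((w.edges.map c).count a : ZMod 2) := by
    intro a
    rw [← sum_single_apply, par, List.map_map]
    rfl
  constructor
  · intro h0 a
    rw [← ZMod.natCast_eq_zero_iff_even, ← h a, h0]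
    rfl
  · intro hw
    ext a
    rw [h a, Finsupp.zero_apply, ZMod.natCast_eq_zero_iff_even]
    exact hw a

lemma add_self_finsupp (x : C →₀ ZMod 2) : x + x = 0 := by
  ext a
  rw [Finsupp.add_apply, Finsupp.zero_apply]
  exact CharTwo.add_self_eq_zero _

/-- The parity vectors of the closed walks at `v₀`. -/
noncomputable def closedPar (G : SimpleGraph V) (c : Sym2 V → C) (v₀ : V) :
    Submodule (ZMod 2) (C →₀ ZMod 2) where
  carrier := {x | ∃ w : G.Walk v₀ v₀, par c w = x}
  add_mem' := by
    rintro _ _ ⟨p, rfl⟩ ⟨q, rfl⟩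
    exact ⟨p.append q, par_append c p q⟩
  zero_mem' := ⟨SimpleGraph.Walk.nil, par_nil c v₀⟩
  smul_mem' := by
    rintro r _ ⟨p, rfl⟩
    fin_cases r
    · exact ⟨SimpleGraph.Walk.nil, by rw [par_nil]; exact (zero_smul _ _).symm⟩
    · exact ⟨p, (one_smul _ _).symm⟩

/-- A spec of a connected graph gives an injective labelling by elements of a field of
characteristic two such that the sum of the labels of the ends of an edge depends only on the
color of the edge. -/
lemma exists_labelling (hc : IsSpec G c) (v₀ : V) (hconn : ∀ v, G.Reachable v₀ v) :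
    ∃ (F : Type) (_ : Field F) (_ : CharP F 2) (x : V → F) (d : C → F),
      Function.Injective x ∧ ∀ u v, G.Adj u v → x u + x v = d (c s(u, v)) := by
  classical
  let W := closedPar G c v₀
  let Q := (C →₀ ZMod 2) ⧸ W
  obtain ⟨F, hF, hF2, ψ, hψ⟩ := exists_field_embedding Q
  let p : ∀ v, G.Walk v₀ v := fun v => (hconn v).some
  refine ⟨F, hF, hF2, fun v => ψ (Submodule.Quotient.mk (par c (p v))),
    fun a => ψ (Submodule.Quotient.mk (Finsupp.single a 1)), ?_, ?_⟩
  · intro u v huv
    have h1 := hψ huv
    rw [Submodule.Quotient.eq] at h1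
    obtain ⟨w, hw⟩ := h1
    apply hc u v (((p u).reverse.append w).append (p v))
    rw [← par_eq_zero_iff, par_append, par_append, par_reverse, hw]
    have h2 := add_self_finsupp (par c (p u))
    rw [add_sub, h2, zero_sub]
    exact neg_add_cancel _
  · intro u v huv
    rw [← map_add, ← Submodule.Quotient.mk_add]
    congr 1
    rw [Submodule.Quotient.eq]
    refine ⟨((p u).append (SimpleGraph.Walk.cons huv SimpleGraph.Walk.nil)).append
      (p v).reverse, ?_⟩
    rw [par_append, par_append, par_reverse, par_cons, par_nil, add_zero]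
    have h2 := add_self_finsupp (Finsupp.single (c s(u, v)) (1 : ZMod 2))
    have h3 : (Finsupp.single (c s(u, v)) (1 : ZMod 2)) = -Finsupp.single (c s(u, v)) 1 :=
      eq_neg_of_add_eq_zero_left h2
    rw [add_right_comm, sub_eq_add_neg, ← h3]

end Parity

/-- Every vertex of `P_n^ℓ` can be reached from the first one. -/
lemma pathPower_reachable {n ℓ : ℕ} (hℓ : 1 ≤ ℓ) (h0 : 0 < n) :
    ∀ (m : ℕ) (hm : m < n), (pathPower n ℓ).Reachable ⟨0, h0⟩ ⟨m, hm⟩ := by
  intro m
  induction m with
  | zero => intro hm; exact SimpleGraph.Reachable.refl _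
  | succ m ih =>
    intro hm
    refine (ih (by omega)).trans (SimpleGraph.Adj.reachable ?_)
    refine ⟨?_, ?_, ?_⟩
    · intro h
      have := congrArg Fin.val h
      simp at this
    · show m ≤ m + 1 + ℓ
      omega
    · show m + 1 ≤ m + ℓ
      omega

/-- The lower bound for the number of colors of a strong parity edge-coloring of `P_n^ℓ`. -/
theorem lower_bound {C : Type} [DecidableEq C] {n ℓ : ℕ} (hn : 1 ≤ n) (hℓ : 1 ≤ ℓ)
    (c : Sym2 (Fin n) → C) (hc : IsSpec (pathPower n ℓ) c) :
    ∑ k ∈ range (Nat.clog 2 n), min ℓ (2 ^ k) ≤ (c '' (pathPower n ℓ).edgeSet).ncard := by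
  classical
  obtain ⟨F, _, _, x, d, hx, hd⟩ := exists_labelling c hc ⟨0, hn⟩
    (fun v => pathPower_reachable hℓ hn v.1 v.2)
  let y : ℕ → F := fun i => if h : i < n then x ⟨i, h⟩ else 0
  have hy : ∀ (i : ℕ) (hi : i < n), y i = x ⟨i, hi⟩ := fun i hi => dif_pos hi
  have hfin : (c '' (pathPower n ℓ).edgeSet).Finite := Set.toFinite _
  let D : Finset F := hfin.toFinset.image d
  have h := card_diff_ge n ℓ y (by
    intro i hi j hj hij
    rw [Set.mem_Iio] at hi hj
    rw [hy i hi, hy j hj] at hij
    exact congrArg Fin.val (hx hij)) D (by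
    intro i j hij hj hl
    have hi : i < n := by omega
    rw [hy i hi, hy j hj]
    have hadj : (pathPower n ℓ).Adj ⟨i, hi⟩ ⟨j, hj⟩ := by
      refine ⟨?_, ?_, ?_⟩
      · intro h
        have := congrArg Fin.val h
        simp at this
        omega
      · show i ≤ j + ℓ
        omega
      · show j ≤ i + ℓ
        omega
    rw [hd _ _ hadj]
    simp only [D, Finset.mem_image, Set.Finite.mem_toFinset]
    exact ⟨_, ⟨_, (SimpleGraph.mem_edgeSet _).2 hadj, rfl⟩, rfl⟩)
  refine h.trans (Finset.card_image_le.trans ?_)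
  rw [Set.ncard_eq_toFinset_card _ hfin]

end Pool.Agent.H13.Spec
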