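import Mathlib

/-!
The polynomial method for differences of injective sequences in characteristic two.

Main result `card_diff_ge`: let `x 0, …, x (n-1)` be distinct elements of a field of characteristic
two and let `D` contain all `x i + x j` with `0 < j - i ≤ ℓ`. Then
`|D| ≥ ∑_{k < ⌈log₂ n⌉} min ℓ (2 ^ k)`.
-/

namespace Pool.Agent.H13.Spec

open Finset

section Field

variable {F : Type*} [Field F]

/-- The function `(x, y) ↦ f (x + y)` is a symmetric form of rank at most `2 ℓ` of a special
shape. -/
def Splits (ℓ : ℕ) (f : F → F) : Prop :=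
  ∃ M : ℕ → F → F, ∀ x y, f (x + y) = ∑ b ∈ range ℓ, (y ^ b * M b x + x ^ b * M b y)

lemma Splits.sum {ι : Type*} {ℓ : ℕ} (s : Finset ι) (c : ι → F) (f : ι → F → F)
    (h : ∀ i ∈ s, Splits ℓ (f i)) : Splits ℓ (fun z => ∑ i ∈ s, c i * f i z) := by
  classical
  choose! M hM using h
  refine ⟨fun b x => ∑ i ∈ s, c i * M i b x, fun x y => ?_⟩
  have h1 : ∑ i ∈ s, c i * f i (x + y) =
      ∑ i ∈ s, ∑ b ∈ range ℓ, (y ^ b * (c i * M i b x) + x ^ b * (c i * M i b y)) := by
    refine Finset.sum_congr rfl fun i hi => ?_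
    rw [hM i hi x y, Finset.mul_sum]
    refine Finset.sum_congr rfl fun b _ => ?_
    ring
  beta_reduce
  rw [h1, Finset.sum_comm]
  refine Finset.sum_congr rfl fun b _ => ?_
  rw [Finset.sum_add_distrib, Finset.mul_sum, Finset.mul_sum]

lemma splits_pow [CharP F 2] (k e ℓ : ℕ) (he : e < ℓ) : Splits ℓ (fun z : F => z ^ (2 ^ k + e)) := by
  refine ⟨fun b x => (e.choose b : F) * x ^ (2 ^ k + (e - b)), fun x y => ?_⟩
  have h1 : (x + y) ^ (2 ^ k + e) = (x ^ 2 ^ k + y ^ 2 ^ k) * (x + y) ^ e := by
    rw [pow_add, add_pow_char_pow]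
  have h2 : (x + y) ^ e = ∑ b ∈ range ℓ, (e.choose b : F) * (x ^ b * y ^ (e - b)) := by
    rw [add_pow]
    have hsub : range (e + 1) ⊆ range ℓ := Finset.range_subset_range.2 he
    rw [← Finset.sum_subset hsub]
    · refine Finset.sum_congr rfl fun b _ => ?_
      ring
    · intro b _ hb
      rw [Finset.mem_range, not_lt] at hb
      rw [Nat.choose_eq_zero_of_lt (by omega)]
      simp
  have h3 : (x + y) ^ e = ∑ b ∈ range ℓ, (e.choose b : F) * (y ^ b * x ^ (e - b)) := by
    rw [add_comm, add_pow]
    have hsub : range (e + 1) ⊆ range ℓ := Finset.range_subset_range.2 he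
    rw [← Finset.sum_subset hsub]
    · refine Finset.sum_congr rfl fun b _ => ?_
      ring
    · intro b _ hb
      rw [Finset.mem_range, not_lt] at hb
      rw [Nat.choose_eq_zero_of_lt (by omega)]
      simp
  beta_reduce
  rw [h1, add_mul]
  nth_rewrite 1 [h3]
  rw [h2, Finset.mul_sum, Finset.mul_sum, ← Finset.sum_add_distrib]
  refine Finset.sum_congr rfl fun b _ => ?_
  rw [pow_add, pow_add]
  ring

/-- The value at one point of a window is a fixed linear combination of the values at the
other points. -/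
lemma window [CharP F 2] {ℓ : ℕ} {f : F → F} (hf : Splits ℓ f) (hf0 : f 0 = 0) (y : ℕ → F)
    (hy : Set.InjOn y (Set.Iic ℓ))
    (hz : ∀ i ≤ ℓ, ∀ j ≤ ℓ, i ≠ j → f (y i + y j) = 0) :
    ∃ a : ℕ → F, ∀ z, f (y 0 + z) = ∑ t ∈ Finset.Icc 1 ℓ, a t * f (y t + z) := by
  classical
  obtain ⟨M, hM⟩ := hf
  have hinj : Set.InjOn y (Finset.Icc 1 ℓ : Finset ℕ) := by
    intro i hi j hj h
    simp only [Finset.coe_Icc, Set.mem_Icc] at hi hj
    exact hy (Set.mem_Iic.2 hi.2) (Set.mem_Iic.2 hj.2) h
  have hcard : (Finset.Icc 1 ℓ).card = ℓ := by simp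
  set a : ℕ → F := fun t => (Lagrange.basis (Finset.Icc 1 ℓ) y t).eval (y 0) with ha
  -- Lagrange coefficients
  have hLag : ∀ b < ℓ, (y 0) ^ b = ∑ t ∈ Finset.Icc 1 ℓ, a t * (y t) ^ b := by
    intro b hb
    have h := Lagrange.eq_interpolate (s := Finset.Icc 1 ℓ) (v := y)
      (f := (Polynomial.X ^ b : Polynomial F)) hinj (by
        rw [hcard, Polynomial.degree_X_pow]
        exact_mod_cast hb)
    have h2 := congrArg (Polynomial.eval (y 0)) h
    rw [Lagrange.interpolate_apply, Polynomial.eval_finsetSum] at h2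
    simp only [Polynomial.eval_pow, Polynomial.eval_X, Polynomial.eval_mul, Polynomial.eval_C] at h2
    rw [h2]
    refine Finset.sum_congr rfl fun t _ => ?_
    rw [ha]; ring
  refine ⟨a, ?_⟩
  -- the difference of the two sides is a polynomial of degree less than ℓ
  set G : Polynomial F := ∑ b ∈ range ℓ,
    Polynomial.C (M b (y 0) - ∑ t ∈ Finset.Icc 1 ℓ, a t * M b (y t)) * Polynomial.X ^ b with hG
  have hGeval : ∀ z, G.eval z = f (y 0 + z) - ∑ t ∈ Finset.Icc 1 ℓ, a t * f (y t + z) := by
    intro z
    have e1 : ∑ t ∈ Finset.Icc 1 ℓ, a t * f (y t + z) =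
        ∑ b ∈ range ℓ, (z ^ b * (∑ t ∈ Finset.Icc 1 ℓ, a t * M b (y t)) + (y 0) ^ b * M b z) := by
      have : ∀ t ∈ Finset.Icc 1 ℓ, a t * f (y t + z) =
          ∑ b ∈ range ℓ, (z ^ b * (a t * M b (y t)) + (a t * (y t) ^ b) * M b z) := by
        intro t _
        rw [hM, Finset.mul_sum]
        refine Finset.sum_congr rfl fun b _ => ?_
        ring
      rw [Finset.sum_congr rfl this, Finset.sum_comm]
      refine Finset.sum_congr rfl fun b hb => ?_
      rw [Finset.sum_add_distrib, ← Finset.mul_sum, ← Finset.sum_mul,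
        ← hLag b (Finset.mem_range.1 hb)]
    rw [e1, hM, hG, Polynomial.eval_finsetSum, ← Finset.sum_sub_distrib]
    refine Finset.sum_congr rfl fun b _ => ?_
    simp only [Polynomial.eval_mul, Polynomial.eval_C, Polynomial.eval_pow, Polynomial.eval_X]
    ring
  have hGdeg : G.degree < ((Finset.Icc 1 ℓ).card : WithBot ℕ) := by
    rw [hcard, ← Polynomial.mem_degreeLT, hG]
    refine Submodule.sum_mem _ fun b hb => ?_
    rw [Polynomial.mem_degreeLT]
    refine lt_of_le_of_lt (Polynomial.degree_C_mul_X_pow_le _ _) ?_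
    exact_mod_cast Finset.mem_range.1 hb
  have hG0 : G = 0 := by
    refine Polynomial.eq_zero_of_degree_lt_of_eval_index_eq_zero (v := y) (s := Finset.Icc 1 ℓ)
      hinj hGdeg ?_
    intro s hs
    rw [Finset.mem_Icc] at hs
    rw [hGeval, hz 0 (Nat.zero_le _) s hs.2 (by omega)]
    rw [Finset.sum_eq_zero, sub_zero]
    intro t ht
    rw [Finset.mem_Icc] at ht
    by_cases hts : t = s
    · subst hts
      rw [CharTwo.add_self_eq_zero, hf0, mul_zero]
    · rw [hz t ht.2 s hs.2 hts, mul_zero]
  intro z
  have := hGeval z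
  rw [hG0, Polynomial.eval_zero] at this
  exact (sub_eq_zero.1 this.symm)

/-- Vanishing at distance at most `ℓ` implies vanishing everywhere. -/
lemma vanish_all [CharP F 2] {ℓ n : ℕ} {f : F → F} (hf : Splits ℓ f) (hf0 : f 0 = 0) (x : ℕ → F)
    (hx : Set.InjOn x (Set.Iio n))
    (hz : ∀ i j, i < j → j < n → j ≤ i + ℓ → f (x i + x j) = 0) :
    ∀ i < n, ∀ j < n, f (x i + x j) = 0 := by
  have key : ∀ m i : ℕ, 0 < m → i + m < n → f (x i + x (i + m)) = 0 := by
    intro m
    induction m using Nat.strong_induction_on with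
    | _ m ih =>
      intro i hm hi
      by_cases hml : m ≤ ℓ
      · exact hz i (i + m) (by omega) hi (by omega)
      · push Not at hml
        obtain ⟨a, ha⟩ := window hf hf0 (fun t => x (i + t))
          (by
            intro s hs t ht hst
            simp only [Set.mem_Iic] at hs ht
            have := hx (Set.mem_Iio.2 (show i + s < n by omega))
              (Set.mem_Iio.2 (show i + t < n by omega)) hst
            omega)
          (by
            intro s hs t ht hst
            rcases lt_or_gt_of_ne hst with h | h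
            · exact hz (i + s) (i + t) (by omega) (by omega) (by omega)
            · show f (x (i + s) + x (i + t)) = 0
              rw [add_comm (x (i + s))]
              exact hz (i + t) (i + s) (by omega) (by omega) (by omega))
        have h := ha (x (i + m))
        simp only [add_zero] at h
        rw [h]
        refine Finset.sum_eq_zero fun t ht => ?_
        rw [Finset.mem_Icc] at ht
        have h3 := ih (m - t) (by omega) (i + t) (by omega) (by omega)
        rw [show i + t + (m - t) = i + m by omega] at h3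
        rw [h3, mul_zero]
  intro i hi j hj
  rcases lt_trichotomy i j with h | h | h
  · have := key (j - i) i (by omega) (by omega)
    rwa [show i + (j - i) = j by omega] at this
  · subst h
    rw [CharTwo.add_self_eq_zero, hf0]
  · have := key (i - j) j (by omega) (by omega)
    rw [show j + (i - j) = i by omega] at this
    rwa [add_comm]

end Field

end Pool.Agent.H13.Spec
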