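import Pool.Agent.H13.Spec.Defs

/-!
The Gray code coloring of `P_n^ℓ` is a strong parity edge-coloring with at most
`∑_{k < ⌈log₂ n⌉} min ℓ (2 ^ k)` colors.
-/

namespace Pool.Agent.H13.Spec

open Finset

/-- The Gray code of `i`. -/
noncomputable def gray (i : ℕ) : ℕ →₀ ZMod 2 := graySum 0 i

lemma gray_succ (i : ℕ) : gray (i + 1) = gray i + Finsupp.single (1 + padicValNat 2 (i + 1)) 1 := by
  unfold gray graySum
  rw [Finset.sum_Ioc_succ_top (Nat.zero_le i)]

lemma gray_add_self (x : ℕ →₀ ZMod 2) : x + x = 0 := by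
  ext a
  rw [Finsupp.add_apply, Finsupp.zero_apply]
  exact CharTwo.add_self_eq_zero _

lemma graySum_eq {i j : ℕ} (h : i ≤ j) : graySum i j = gray i + gray j := by
  induction j, h using Nat.le_induction with
  | base =>
    rw [gray_add_self]
    simp [graySum]
  | succ j hij ih =>
    rw [gray_succ, ← add_assoc, ← ih]
    unfold graySum
    rw [Finset.sum_Ioc_succ_top hij]

lemma gray_zero_coord (i : ℕ) : gray i 0 = 0 := by
  induction i with
  | zero => simp [gray, graySum]
  | succ i ih =>
    rw [gray_succ, Finsupp.add_apply, ih, Finsupp.single_apply, if_neg (by omega), add_zero]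

/-- The coordinates of the Gray code. -/
lemma gray_apply (s i : ℕ) :
    gray i (s + 1) = ((i / 2 ^ s : ℕ) : ZMod 2) + ((i / 2 ^ (s + 1) : ℕ) : ZMod 2) := by
  induction i with
  | zero => simp [gray, graySum]
  | succ i ih =>
    rw [gray_succ, Finsupp.add_apply, ih, Nat.succ_div, Nat.succ_div, Finsupp.single_apply]
    have hne : i + 1 ≠ 0 := by omega
    have h1 : 2 ^ s ∣ i + 1 ↔ s ≤ padicValNat 2 (i + 1) :=
      padicValNat_dvd_iff_le hne
    have h2 : 2 ^ (s + 1) ∣ i + 1 ↔ s + 1 ≤ padicValNat 2 (i + 1) :=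
      padicValNat_dvd_iff_le hne
    rw [show (if 2 ^ s ∣ i + 1 then 1 else 0) = (if s ≤ padicValNat 2 (i + 1) then 1 else 0) by
      simp only [h1]]
    rw [show (if 2 ^ (s + 1) ∣ i + 1 then 1 else 0) =
      (if s + 1 ≤ padicValNat 2 (i + 1) then 1 else 0) by simp only [h2]]
    rcases lt_trichotomy s (padicValNat 2 (i + 1)) with h | h | h
    · rw [if_neg (by omega), if_pos (by omega), if_pos (by omega)]
      push_cast
      have h3 := CharTwo.add_self_eq_zero (1 : ZMod 2)
      linear_combination -h3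
    · rw [if_pos (by omega), if_pos (by omega), if_neg (by omega)]
      push_cast
      ring
    · rw [if_neg (by omega), if_neg (by omega), if_neg (by omega)]
      push_cast
      ring

lemma gray_injective : Function.Injective gray := by
  intro i j hij
  obtain ⟨B, hB⟩ : ∃ B, i < 2 ^ B ∧ j < 2 ^ B := by
    refine ⟨i + j, ?_, ?_⟩
    · exact lt_of_le_of_lt (Nat.le_add_right i j) Nat.lt_two_pow_self
    · exact lt_of_le_of_lt (Nat.le_add_left j i) Nat.lt_two_pow_self
  have key : ∀ d s : ℕ, B ≤ s + d → ((i / 2 ^ s : ℕ) : ZMod 2) = ((j / 2 ^ s : ℕ) : ZMod 2) := by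
    intro d
    induction d with
    | zero =>
      intro s hs
      have h1 : 2 ^ B ≤ 2 ^ s := Nat.pow_le_pow_right (by norm_num) (by omega)
      rw [Nat.div_eq_of_lt (by omega), Nat.div_eq_of_lt (by omega)]
    | succ d ih =>
      intro s hs
      have h1 := ih (s + 1) (by omega)
      have h2 : gray i (s + 1) = gray j (s + 1) := by rw [hij]
      rw [gray_apply, gray_apply, h1] at h2
      exact add_right_cancel h2
  apply Nat.eq_of_testBit_eq
  intro s
  rw [Nat.testBit_eq_decide_div_mod_eq, Nat.testBit_eq_decide_div_mod_eq]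
  have h1 := key B s (by omega)
  rw [ZMod.natCast_eq_natCast_iff'] at h1
  rw [h1]

/-- The Gray code is additive for the bitwise exclusive or. -/
lemma gray_xor (i j : ℕ) : gray (i ^^^ j) = gray i + gray j := by
  have hdiv : ∀ s, (((i ^^^ j) / 2 ^ s : ℕ) : ZMod 2) =
      ((i / 2 ^ s : ℕ) : ZMod 2) + ((j / 2 ^ s : ℕ) : ZMod 2) := by
    intro s
    rw [Nat.xor_div_two_pow, ← Nat.cast_add, ZMod.natCast_eq_natCast_iff']
    exact Nat.xor_mod_two_eq
  ext t
  rcases t with _ | s
  · rw [Finsupp.add_apply, gray_zero_coord, gray_zero_coord, gray_zero_coord, add_zero]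
  · rw [Finsupp.add_apply, gray_apply, gray_apply, gray_apply, hdiv, hdiv]
    ring

lemma grayColoring_mk {n : ℕ} (i j : Fin n) :
    grayColoring n s(i, j) = gray i + gray j := by
  have h : grayColoring n s(i, j) = graySum (min (i : ℕ) j) (max (i : ℕ) j) := rfl
  rw [h, graySum_eq (min_le_max)]
  rcases le_total (i : ℕ) j with h | h
  · rw [min_eq_left h, max_eq_right h]
  · rw [min_eq_right h, max_eq_left h, add_comm]

/-- The Gray code coloring is a strong parity edge-coloring of every graph on `Fin n`. -/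
theorem grayColoring_isSpec {n : ℕ} (G : SimpleGraph (Fin n)) : IsSpec G (grayColoring n) := by
  intro u v w hw
  have hsum : ∀ {u v : Fin n} (w : G.Walk u v),
      (w.edges.map (grayColoring n)).sum = gray u + gray v := by
    intro u v w
    induction w with
    | nil => simp [gray_add_self]
    | cons h p ih =>
      rename_i a b c
      rw [SimpleGraph.Walk.edges_cons, List.map_cons, List.sum_cons, ih, grayColoring_mk]
      have := gray_add_self (gray b)
      calc gray a + gray b + (gray b + gray c) = gray a + (gray b + gray b) + gray c := by abel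
        _ = gray a + gray c := by rw [this, add_zero]
  have h1 := hsum w
  rw [Finset.sum_list_count] at h1
  rw [Finset.sum_eq_zero] at h1
  · have h2 : gray u = gray v := by
      have h3 := gray_add_self (gray v)
      calc gray u = gray u + (gray v + gray v) := by rw [h3, add_zero]
        _ = (gray u + gray v) + gray v := by abel
        _ = gray v := by rw [← h1, zero_add]
    exact Fin.ext (gray_injective h2)
  · intro a _
    obtain ⟨r, hr⟩ := hw a
    rw [hr, add_smul, gray_add_self]

/-- The combinatorial core of the count of colors. -/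
lemma xor_form : ∀ j i : ℕ, i < j →
    ∃ k w, i ^^^ j = (2 ^ (k + 1) - 1) ^^^ w ∧ w + 1 + i ≤ j ∧ w < 2 ^ k ∧ 2 ^ k ≤ j := by
  intro j
  induction j using Nat.strong_induction_on with
  | _ j ih =>
    intro i hij
    have hx1 : ∀ a b : ℕ, (a ^^^ b) / 2 = a / 2 ^^^ b / 2 := fun a b => Nat.xor_div_two
    have hx2 : ∀ a b : ℕ, (a ^^^ b) % 2 = (a + b) % 2 := fun a b => Nat.xor_mod_two_eq
    by_cases h : i / 2 = j / 2
    · refine ⟨0, 0, ?_, by omega, by norm_num, by omega⟩
      have h1 := hx1 i j
      have h2 := hx2 i j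
      rw [h, Nat.xor_self] at h1
      have h3 : (2 ^ (0 + 1) - 1 : ℕ) ^^^ 0 = 1 := by norm_num
      rw [h3]
      omega
    · have hlt : i / 2 < j / 2 := by omega
      obtain ⟨k, w, hw1, hw2, hw3, hw4⟩ := ih (j / 2) (by omega) (i / 2) hlt
      refine ⟨k + 1, 2 * w + (1 + i + j) % 2, ?_, by omega, by rw [pow_succ]; omega,
        by rw [pow_succ]; omega⟩
      have h1 := hx1 i j
      have h2 := hx2 i j
      have h3 := hx1 (2 ^ (k + 1 + 1) - 1) (2 * w + (1 + i + j) % 2)
      have h4 := hx2 (2 ^ (k + 1 + 1) - 1) (2 * w + (1 + i + j) % 2)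
      have h5 : (2 ^ (k + 1 + 1) - 1) / 2 = 2 ^ (k + 1) - 1 := by
        rw [pow_succ 2 (k + 1)]
        have : 0 < 2 ^ (k + 1) := by positivity
        omega
      have h6 : (2 * w + (1 + i + j) % 2) / 2 = w := by omega
      have h7 : (2 ^ (k + 1 + 1) - 1) % 2 = 1 := by
        rw [pow_succ 2 (k + 1)]
        have : 0 < 2 ^ (k + 1) := by positivity
        omega
      rw [h5, h6, ← hw1, ← h1] at h3
      omega

/-- The Gray code coloring of `P_n^ℓ` has at most `∑_{k < ⌈log₂ n⌉} min ℓ (2 ^ k)` colors. -/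
theorem upper_bound (n ℓ : ℕ) :
    (grayColoring n '' (pathPower n ℓ).edgeSet).ncard ≤
      ∑ k ∈ range (Nat.clog 2 n), min ℓ (2 ^ k) := by
  classical
  let T : Finset (ℕ →₀ ZMod 2) := (range (Nat.clog 2 n)).biUnion fun k =>
    (range (min ℓ (2 ^ k))).image fun w => gray ((2 ^ (k + 1) - 1) ^^^ w)
  have hsub : grayColoring n '' (pathPower n ℓ).edgeSet ⊆ (T : Set (ℕ →₀ ZMod 2)) := by
    have hmain : ∀ i j : Fin n, (i : ℕ) < j → (j : ℕ) ≤ i + ℓ → gray i + gray j ∈ T := by
      intro i j hij hl
      obtain ⟨k, w, hw1, hw2, hw3, hw4⟩ := xor_form j i hij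
      simp only [T, Finset.mem_biUnion, Finset.mem_range, Finset.mem_image, lt_min_iff]
      refine ⟨k, ?_, w, ⟨by omega, hw3⟩, ?_⟩
      · rw [Nat.lt_clog_iff_pow_lt (by norm_num)]
        exact lt_of_le_of_lt hw4 j.2
      · rw [← hw1, gray_xor]
    rintro _ ⟨e, he, rfl⟩
    induction e using Sym2.ind with
    | _ i j =>
      rw [SimpleGraph.mem_edgeSet] at he
      obtain ⟨hne, h1, h2⟩ := he
      rw [grayColoring_mk]
      have hne' : (i : ℕ) ≠ j := fun h => hne (Fin.ext h)
      rcases lt_or_gt_of_ne hne' with h | h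
      · exact hmain i j h h2
      · rw [add_comm]
        exact hmain j i h h1
  calc (grayColoring n '' (pathPower n ℓ).edgeSet).ncard ≤ (T : Set (ℕ →₀ ZMod 2)).ncard :=
        Set.ncard_le_ncard hsub (Finset.finite_toSet T)
    _ = T.card := Set.ncard_coe_finset T
    _ ≤ ∑ k ∈ range (Nat.clog 2 n), min ℓ (2 ^ k) := by
        refine Finset.card_biUnion_le.trans (Finset.sum_le_sum fun k _ => ?_)
        exact Finset.card_image_le.trans (by rw [Finset.card_range])

end Pool.Agent.H13.Spec
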